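import Pool.Agent.Helper50.BP.St

/-!
PROJECT BP (MP_b3ce06_al), module XK
-/

set_option autoImplicit false

namespace Pool.Agent.Helper89.BP

open Pool.Agent.Helper50.BP

private theorem pos_pow {G : Type} [Group G] [Finite G] {x y : G}
    (h : y ∈ Subgroup.zpowers x) : ∃ i : ℕ, 1 ≤ i ∧ x ^ i = y := by
  obtain ⟨i, hi⟩ := (isOfFinOrder_of_finite x).mem_powers_iff_mem_zpowers.2 h
  refine ⟨i + orderOf x, ?_, ?_⟩
  · have := orderOf_pos x
    omega
  · have hi' : x ^ i = y := hi
    rw [pow_add, pow_orderOf_eq_one, mul_one, hi']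

/-- MODULE XK. -/
theorem hXK : StXK := by
  intro K _ _ h2 v hv
  have hv' : (1 : K) - v ≠ 0 := by
    intro h
    apply hv
    ext
    exact (sub_eq_zero.1 h).symm
  let v' : Kˣ := Units.mk0 (1 - (v : K)) hv'
  have hv'c : (v' : K) = 1 - v := rfl
  set H : Subgroup Kˣ := Subgroup.closure {v, v', -1} with hH
  have hcyc : IsCyclic H := Subgroup.isCyclic H
  obtain ⟨x, hx⟩ := H.isCyclic_iff_exists_zpowers_eq_top.1 hcyc
  have hmem : ∀ y ∈ ({v, v', -1} : Set Kˣ), y ∈ Subgroup.zpowers x := by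
    intro y hy
    rw [hx]
    exact Subgroup.subset_closure hy
  obtain ⟨k, hk1, hk⟩ := pos_pow (hmem v (by simp))
  obtain ⟨l, hl1, hl⟩ := pos_pow (hmem v' (by simp))
  have hm := hmem (-1) (by simp)
  have hne : (-1 : Kˣ) ≠ 1 := by
    intro h
    apply h2
    have h3 : ((-1 : Kˣ) : K) = ((1 : Kˣ) : K) := congrArg _ h
    rw [Units.val_neg, Units.val_one] at h3
    have h4 : (1 : K) + 1 = 0 := by
      nth_rewrite 1 [← h3]
      ring
    rw [← h4]
    norm_num
  have hord : orderOf (-1 : Kˣ) = 2 := orderOf_eq_prime (by simp) hne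
  have hdvd : 2 ∣ orderOf x := by
    rw [← hord]
    exact orderOf_dvd_of_mem_zpowers hm
  obtain ⟨h, hh⟩ := hdvd
  have hpos := orderOf_pos x
  have hh1 : 1 ≤ h := by
    rcases Nat.eq_zero_or_pos h with h0 | h0
    · rw [h0] at hh; omega
    · exact h0
  have hxh : (x : K) ^ h = -1 := by
    have h3 : ((x : K) ^ h) ^ 2 = 1 := by
      have h4 : x ^ (2 * h) = 1 := by rw [← hh, pow_orderOf_eq_one]
      have h5 : ((x ^ (2 * h) : Kˣ) : K) = ((1 : Kˣ) : K) := congrArg _ h4
      rw [Units.val_pow_eq_pow_val, Units.val_one] at h5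
      rw [← pow_mul, mul_comm h 2, h5]
    rcases sq_eq_one_iff.1 h3 with h4 | h4
    · exfalso
      have h5 : x ^ h = 1 := by
        ext
        rw [Units.val_pow_eq_pow_val, Units.val_one, h4]
      have h6 := orderOf_dvd_of_pow_eq_one h5
      have h7 := Nat.le_of_dvd hh1 h6
      omega
    · exact h4
  refine ⟨x, k, l, h, hh1, hk1, hl1, hh, hk, ?_, hxh, ?_⟩
  · have h3 : ((x ^ l : Kˣ) : K) = 1 - v := by rw [hl, hv'c]
    have h4 : ((x ^ k : Kˣ) : K) = v := by rw [hk]
    rw [Units.val_pow_eq_pow_val] at h3 h4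
    rw [h3, h4]
    ring
  · set d := Nat.gcd (Nat.gcd k l) h with hd
    have hdk : d ∣ k := (Nat.gcd_dvd_left _ _).trans (Nat.gcd_dvd_left _ _)
    have hdl : d ∣ l := (Nat.gcd_dvd_left _ _).trans (Nat.gcd_dvd_right _ _)
    have hdh : d ∣ h := Nat.gcd_dvd_right _ _
    have hd0 : 0 < d := Nat.gcd_pos_of_pos_right _ hh1
    have hxm : -1 = x ^ h := by
      ext
      rw [Units.val_neg, Units.val_one, Units.val_pow_eq_pow_val, hxh]
    have hpw : ∀ i : ℕ, d ∣ i → x ^ i ∈ Subgroup.zpowers (x ^ d) := by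
      rintro i ⟨j, rfl⟩
      rw [pow_mul]
      exact Subgroup.pow_mem _ (Subgroup.mem_zpowers _) j
    have hle : H ≤ Subgroup.zpowers (x ^ d) := by
      rw [hH, Subgroup.closure_le]
      intro y hy
      simp only [Set.mem_insert_iff, Set.mem_singleton_iff] at hy
      rcases hy with rfl | rfl | rfl
      · rw [← hk]; exact hpw k hdk
      · rw [← hl]; exact hpw l hdl
      · rw [hxm]; exact hpw h hdh
    have hxd : x ∈ Subgroup.zpowers (x ^ d) := by
      apply hle
      rw [← hx]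
      exact Subgroup.mem_zpowers x
    have h3 := orderOf_dvd_of_mem_zpowers hxd
    have hdo : d ∣ orderOf x := by
      rw [hh]
      exact hdh.mul_left 2
    rw [orderOf_pow_of_dvd hd0.ne' hdo] at h3
    by_contra hne1
    have h4 : orderOf x / d < orderOf x := Nat.div_lt_self hpos (by omega)
    have h5 : 0 < orderOf x / d := Nat.div_pos (Nat.le_of_dvd hpos hdo) hd0
    exact absurd (Nat.le_of_dvd h5 h3) (by omega)

end Pool.Agent.Helper89.BP
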